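import Mathlib
import Pool.Agent.Helper153.FacA

/-! # the kernel of the large values method: tails and mean values over dilations -/

set_option autoImplicit false

open Finset MeasureTheory

namespace Pool.Agent.TH181.LV

/-- `exp (i x)` -/
noncomputable def E (x : ℝ) : ℂ := Complex.exp ((x : ℂ) * Complex.I)

theorem E_norm (x : ℝ) : ‖E x‖ = 1 := Complex.norm_exp_ofReal_mul_I x

theorem E_add (x y : ℝ) : E (x + y) = E x * E y := by
  unfold E
  rw [← Complex.exp_add]
  congr 1
  push_cast
  ring

theorem E_zero : E 0 = 1 := by unfold E; simp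

theorem E_conj (x : ℝ) : (starRingEnd ℂ) (E x) = E (-x) := by
  unfold E
  rw [← Complex.exp_conj]
  congr 1
  simp only [map_mul, Complex.conj_ofReal, Complex.conj_I]
  push_cast
  ring

theorem E_re (x : ℝ) : (E x).re = Real.cos x := by
  unfold E
  exact Complex.exp_ofReal_mul_I_re x

theorem E_cont : Continuous E := by
  unfold E
  fun_prop

theorem ee_E (x : ℝ) : Pool.Agent.Helper153.Vdc.ee x = E (2 * Real.pi * x) := by
  unfold Pool.Agent.Helper153.Vdc.ee E
  congr 1
  push_cast
  ring

/-- the kernel -/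
noncomputable def F (M : ℕ) (u : ℝ) : ℂ := ∑ n ∈ Icc 1 M, E (u * Real.log n)

theorem F_le (M : ℕ) (u : ℝ) : ‖F M u‖ ≤ M := by
  unfold F
  refine (norm_sum_le _ _).trans ?_
  simp only [E_norm]
  simp

theorem F_neg (M : ℕ) (u : ℝ) : ‖F M (-u)‖ = ‖F M u‖ := by
  have h : F M (-u) = (starRingEnd ℂ) (F M u) := by
    unfold F
    rw [map_sum]
    apply Finset.sum_congr rfl
    intro n _
    rw [E_conj]
    congr 1
    ring
  rw [h, Complex.norm_conj]

theorem F_abs (M : ℕ) (u : ℝ) : ‖F M |u|‖ = ‖F M u‖ := by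
  rcases abs_choice u with h | h
  · rw [h]
  · rw [h, F_neg]

theorem F_cont (M : ℕ) : Continuous (F M) := by
  unfold F
  refine continuous_finsetSum _ (fun n _ => ?_)
  exact E_cont.comp (by fun_prop)

theorem log_diff_ge (a : ℕ) (ha : 2 ≤ a) : 1 / (a : ℝ) ≤ Real.log a - Real.log ((a - 1 : ℕ) : ℝ) := by
  have h1 : ((a - 1 : ℕ) : ℝ) = (a : ℝ) - 1 := by rw [Nat.cast_sub (by omega)]; simp
  rw [h1]
  have ha' : (2 : ℝ) ≤ a := by exact_mod_cast ha
  have h2 : Real.log (a : ℝ) - Real.log ((a : ℝ) - 1) = -Real.log (((a : ℝ) - 1) / a) := by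
    rw [Real.log_div (by linarith) (by linarith)]; ring
  rw [h2]
  have h3 := Real.log_le_sub_one_of_pos (x := ((a : ℝ) - 1) / a) (div_pos (by linarith) (by linarith))
  have h4 : ((a : ℝ) - 1) / a - 1 = -(1 / (a : ℝ)) := by field_simp; ring
  rw [h4] at h3
  linarith

theorem log_diff_le (a : ℕ) (ha : 2 ≤ a) : Real.log a - Real.log ((a - 1 : ℕ) : ℝ) ≤ 1 / ((a - 1 : ℕ) : ℝ) := by
  have h1 : ((a - 1 : ℕ) : ℝ) = (a : ℝ) - 1 := by rw [Nat.cast_sub (by omega)]; simp
  rw [h1]
  have ha' : (2 : ℝ) ≤ a := by exact_mod_cast ha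
  rw [← Real.log_div (by linarith) (by linarith)]
  have h3 := Real.log_le_sub_one_of_pos (x := (a : ℝ) / ((a : ℝ) - 1)) (div_pos (by linarith) (by linarith))
  have h4 : (a : ℝ) / ((a : ℝ) - 1) - 1 = 1 / ((a : ℝ) - 1) := by
    have : (a : ℝ) - 1 ≠ 0 := by linarith
    field_simp; ring
  rw [h4] at h3
  exact h3

/-- the tail of the kernel -/
theorem tail (M N : ℕ) (v : ℝ) (hv : 0 < v) (hvM : v ≤ 3 * ((M : ℝ) + 1)) :
    ‖∑ n ∈ Ioc M N, E (v * Real.log n)‖ ≤ 4 * Real.pi * N / v := by
  have hpi := Real.pi_gt_three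
  rcases Nat.lt_or_ge M N with hMN | hMN
  swap
  · rw [Finset.Ioc_eq_empty (by omega), Finset.sum_empty, norm_zero]
    positivity
  have hN0 : (0 : ℝ) < N := by
    have : 0 < N := by omega
    exact_mod_cast this
  have hMN' : (M : ℝ) + 1 ≤ N := by exact_mod_cast hMN
  set g : ℕ → ℝ := fun j => -(v / (2 * Real.pi) * Real.log ((N - j : ℕ) : ℝ)) with hg
  have hsum : ‖∑ n ∈ Ioc M N, E (v * Real.log n)‖ = ‖∑ j ∈ range (N - M), Pool.Agent.Helper153.Vdc.ee (g j)‖ := by
    have h1 : ∑ j ∈ range (N - M), Pool.Agent.Helper153.Vdc.ee (g j) =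
        (starRingEnd ℂ) (∑ n ∈ Ioc M N, E (v * Real.log n)) := by
      rw [map_sum]
      symm
      apply Finset.sum_nbij' (fun n => N - n) (fun j => N - j)
      · intro n hn
        rw [Finset.mem_Ioc] at hn
        rw [Finset.mem_range]
        omega
      · intro j hj
        rw [Finset.mem_range] at hj
        rw [Finset.mem_Ioc]
        omega
      · intro n hn
        rw [Finset.mem_Ioc] at hn
        omega
      · intro j hj
        rw [Finset.mem_range] at hj
        omega
      · intro n hn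
        rw [Finset.mem_Ioc] at hn
        rw [ee_E, E_conj, hg]
        have h2 : N - (N - n) = n := by omega
        simp only
        rw [h2]
        congr 1
        field_simp
    rw [h1, Complex.norm_conj]
  rw [hsum]
  set θ : ℝ := v / (2 * Real.pi * N) with hθ
  have hθ0 : 0 < θ := by positivity
  have hθ2 : θ ≤ 1 / 2 := by
    rw [hθ, div_le_div_iff₀ (by positivity) (by norm_num)]
    nlinarith
  have h1 : ∀ n, n + 1 < N - M → θ ≤ g (n + 1) - g n ∧ g (n + 1) - g n ≤ 1 / 2 := by
    intro n hn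
    set a : ℕ := N - n with ha
    have ha1 : N - (n + 1) = a - 1 := by omega
    have ha2 : M + 2 ≤ a := by omega
    have haN : a ≤ N := by omega
    have e1 : g (n + 1) - g n = v / (2 * Real.pi) * (Real.log a - Real.log ((a - 1 : ℕ) : ℝ)) := by
      rw [hg]
      simp only
      rw [ha1, ← ha]; ring
    rw [e1]
    have h2 := log_diff_ge a (by omega)
    have h3 := log_diff_le a (by omega)
    have haN' : (a : ℝ) ≤ N := by exact_mod_cast haN
    have ha0 : (0 : ℝ) < a := by
      have : 0 < a := by omega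
      exact_mod_cast this
    have ha3 : (M : ℝ) + 1 ≤ ((a - 1 : ℕ) : ℝ) := by
      have : M + 1 ≤ a - 1 := by omega
      exact_mod_cast this
    constructor
    · rw [hθ]
      calc v / (2 * Real.pi * N) = v / (2 * Real.pi) * (1 / (N : ℝ)) := by field_simp
        _ ≤ v / (2 * Real.pi) * (Real.log a - Real.log ((a - 1 : ℕ) : ℝ)) := by
            apply mul_le_mul_of_nonneg_left _ (by positivity)
            exact (one_div_le_one_div_of_le ha0 haN').trans h2
    · calc v / (2 * Real.pi) * (Real.log a - Real.log ((a - 1 : ℕ) : ℝ))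
          ≤ v / (2 * Real.pi) * (1 / ((M : ℝ) + 1)) := by
            apply mul_le_mul_of_nonneg_left _ (by positivity)
            exact h3.trans (one_div_le_one_div_of_le (by positivity) ha3)
        _ ≤ 1 / 2 := by
            rw [div_mul_div_comm, mul_one, div_le_div_iff₀ (by positivity) (by norm_num)]
            have hM0 : (0 : ℝ) ≤ M := by positivity
            nlinarith
  have h2 : ∀ n, n + 2 < N - M → g (n + 1) - g n ≤ g (n + 2) - g (n + 1) := by
    intro n hn
    set a : ℕ := N - n with ha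
    have ha1 : N - (n + 1) = a - 1 := by omega
    have ha2 : N - (n + 2) = a - 2 := by omega
    have ha3 : 3 ≤ a := by omega
    have ha3' : (3 : ℝ) ≤ a := by exact_mod_cast ha3
    have c1 : ((a - 1 : ℕ) : ℝ) = (a : ℝ) - 1 := by rw [Nat.cast_sub (by omega)]; simp
    have c2 : ((a - 2 : ℕ) : ℝ) = (a : ℝ) - 2 := by rw [Nat.cast_sub (by omega)]; simp
    have key : Real.log (a : ℝ) + Real.log ((a : ℝ) - 2) ≤ 2 * Real.log ((a : ℝ) - 1) := by
      rw [← Real.log_mul (by linarith) (by linarith)]
      have : 2 * Real.log ((a : ℝ) - 1) = Real.log (((a : ℝ) - 1) ^ 2) := by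
        rw [Real.log_pow]; norm_num
      rw [this]
      apply Real.log_le_log
      · have : 0 < (a : ℝ) - 2 := by linarith
        positivity
      · nlinarith
    rw [hg]
    simp only
    rw [ha1, ha2, ← ha, c1, c2]
    have hc : 0 ≤ v / (2 * Real.pi) := by positivity
    nlinarith
  have h3 := Pool.Agent.Helper153.Vdc.kusmin_landau (N - M) g θ hθ0 hθ2 h1 h2
  refine h3.trans (le_of_eq ?_)
  rw [hθ]
  field_simp
  ring

/-- the kernel is at most its initial part plus `4 π N / u` -/
theorem F_split (N : ℕ) (u lam : ℝ) (hu : 1 ≤ u) (hl1 : 1 ≤ lam) (hl2 : lam ≤ 2) :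
    ‖F N (lam * u)‖ ≤ ‖F (min N ⌈u⌉₊) (lam * u)‖ + 4 * Real.pi * N / u := by
  have hu0 : 0 < u := by linarith
  rcases Nat.le_total N ⌈u⌉₊ with h | h
  · rw [min_eq_left h]
    have : 0 ≤ 4 * Real.pi * N / u := by positivity
    linarith
  · rw [min_eq_right h]
    have h1 : F N (lam * u) = F ⌈u⌉₊ (lam * u) + ∑ n ∈ Ioc ⌈u⌉₊ N, E (lam * u * Real.log n) := by
      unfold F
      have e1 : ∀ K : ℕ, Icc 1 K = Ioc 0 K := by
        intro K; ext n; simp only [Finset.mem_Icc, Finset.mem_Ioc]; omega
      rw [e1, e1, Finset.sum_Ioc_consecutive _ (Nat.zero_le _) h]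
    rw [h1]
    refine (norm_add_le _ _).trans ?_
    apply add_le_add le_rfl
    have h2 : u ≤ (⌈u⌉₊ : ℝ) := Nat.le_ceil u
    refine (tail ⌈u⌉₊ N (lam * u) (by positivity) (by nlinarith)).trans ?_
    apply div_le_div_of_nonneg_left (by positivity) hu0
    nlinarith

/-- sum of reciprocals of differences -/
theorem sum_recip (M : ℕ) (n : ℕ) (hn : n ∈ Icc 1 M) :
    ∑ m ∈ (Icc 1 M).erase n, 1 / |(n : ℝ) - m| ≤ 2 * (1 + Real.log M) := by
  rw [Finset.mem_Icc] at hn
  have hM0 : (1 : ℝ) ≤ M := by
    have : 1 ≤ M := by omega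
    exact_mod_cast this
  have hH : ∀ K : ℕ, K ≤ M → ∑ k ∈ Icc 1 K, 1 / (k : ℝ) ≤ 1 + Real.log M := by
    intro K hK
    have h1 := harmonic_le_one_add_log K
    rw [harmonic_eq_sum_Icc] at h1
    push_cast at h1
    have h2 : ∑ k ∈ Icc 1 K, 1 / (k : ℝ) = ∑ k ∈ Icc 1 K, (k : ℝ)⁻¹ :=
      Finset.sum_congr rfl (fun k _ => one_div _)
    rw [h2]
    refine h1.trans ?_
    rcases Nat.eq_zero_or_pos K with h3 | h3
    · subst h3
      have := Real.log_nonneg hM0
      simp only [Nat.cast_zero, Real.log_zero]; linarith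
    · have h4 : (0 : ℝ) < K := by exact_mod_cast h3
      have := Real.log_le_log h4 (show (K : ℝ) ≤ M by exact_mod_cast hK)
      linarith
  have h1 : (Icc 1 M).erase n = Ico 1 n ∪ Ioc n M := by
    ext m
    simp only [Finset.mem_erase, Finset.mem_Icc, Finset.mem_union, Finset.mem_Ico, Finset.mem_Ioc]
    omega
  have hdis : Disjoint (Ico 1 n) (Ioc n M) := by
    rw [Finset.disjoint_left]
    intro m hm hm'
    rw [Finset.mem_Ico] at hm
    rw [Finset.mem_Ioc] at hm'
    omega
  rw [h1, Finset.sum_union hdis]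
  have h2 : ∑ m ∈ Ico 1 n, 1 / |(n : ℝ) - m| = ∑ k ∈ Icc 1 (n - 1), 1 / (k : ℝ) := by
    apply Finset.sum_nbij' (fun m => n - m) (fun k => n - k)
    · intro m hm
      rw [Finset.mem_Ico] at hm
      rw [Finset.mem_Icc]; omega
    · intro k hk
      rw [Finset.mem_Icc] at hk
      rw [Finset.mem_Ico]; omega
    · intro m hm
      rw [Finset.mem_Ico] at hm
      omega
    · intro k hk
      rw [Finset.mem_Icc] at hk
      omega
    · intro m hm
      rw [Finset.mem_Ico] at hm
      have : ((n - m : ℕ) : ℝ) = (n : ℝ) - m := Nat.cast_sub (by omega)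
      rw [this, abs_of_nonneg]
      have : (m : ℝ) ≤ n := by exact_mod_cast hm.2.le
      linarith
  have h3 : ∑ m ∈ Ioc n M, 1 / |(n : ℝ) - m| = ∑ k ∈ Icc 1 (M - n), 1 / (k : ℝ) := by
    apply Finset.sum_nbij' (fun m => m - n) (fun k => n + k)
    · intro m hm
      rw [Finset.mem_Ioc] at hm
      rw [Finset.mem_Icc]; omega
    · intro k hk
      rw [Finset.mem_Icc] at hk
      rw [Finset.mem_Ioc]; omega
    · intro m hm
      rw [Finset.mem_Ioc] at hm
      omega
    · intro k hk
      rw [Finset.mem_Icc] at hk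
      omega
    · intro m hm
      rw [Finset.mem_Ioc] at hm
      have : ((m - n : ℕ) : ℝ) = (m : ℝ) - n := Nat.cast_sub (by omega)
      rw [this, abs_sub_comm, abs_of_nonneg]
      have : (n : ℝ) ≤ m := by exact_mod_cast hm.1.le
      linarith
  rw [h2, h3]
  have h4 := hH (n - 1) (by omega)
  have h5 := hH (M - n) (by omega)
  linarith

theorem int_cos_le (c : ℝ) (hc : c ≠ 0) : ∫ x in (1 : ℝ)..2, Real.cos (x * c) ≤ 2 / |c| := by
  rw [intervalIntegral.integral_comp_mul_right (fun x => Real.cos x) hc, integral_cos, smul_eq_mul]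
  have h1 : |Real.sin (2 * c) - Real.sin (1 * c)| ≤ 2 := by
    have h2 := Real.abs_sin_le_one (2 * c)
    have h3 := Real.abs_sin_le_one (1 * c)
    have := abs_sub (Real.sin (2 * c)) (Real.sin (1 * c))
    linarith
  calc c⁻¹ * (Real.sin (2 * c) - Real.sin (1 * c)) ≤ |c⁻¹ * (Real.sin (2 * c) - Real.sin (1 * c))| := le_abs_self _
    _ = |c|⁻¹ * |Real.sin (2 * c) - Real.sin (1 * c)| := by rw [abs_mul, abs_inv]
    _ ≤ |c|⁻¹ * 2 := mul_le_mul_of_nonneg_left h1 (by positivity)
    _ = 2 / |c| := by ring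

/-- mean value over dilations -/
theorem mean (M : ℕ) (u : ℝ) (hu : 0 < u) (hM : 1 ≤ M) :
    ∫ x in (1 : ℝ)..2, ‖F M (x * u)‖ ^ 2 ≤ M + 4 * (M : ℝ) ^ 2 * (1 + Real.log M) / u := by
  have hM0 : (0 : ℝ) < M := by exact_mod_cast hM
  have hexp : ∀ x : ℝ, ‖F M (x * u)‖ ^ 2 = ∑ n ∈ Icc 1 M, ∑ m ∈ Icc 1 M,
      Real.cos (x * (u * (Real.log n - Real.log m))) := by
    intro x
    have h1 : ((‖F M (x * u)‖ ^ 2 : ℝ) : ℂ) = F M (x * u) * (starRingEnd ℂ) (F M (x * u)) := by
      rw [Complex.mul_conj, Complex.normSq_eq_norm_sq]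
    have h2 : ‖F M (x * u)‖ ^ 2 = (F M (x * u) * (starRingEnd ℂ) (F M (x * u))).re := by
      rw [← h1, Complex.ofReal_re]
    rw [h2]
    unfold F
    rw [map_sum, Finset.sum_mul_sum, Complex.re_sum]
    apply Finset.sum_congr rfl
    intro n _
    rw [Complex.re_sum]
    apply Finset.sum_congr rfl
    intro m _
    rw [E_conj, ← E_add, E_re]
    congr 1
    ring
  simp_rw [hexp]
  rw [intervalIntegral.integral_finsetSum]
  swap
  · intro n _
    apply Continuous.intervalIntegrable
    refine continuous_finsetSum _ (fun m _ => ?_)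
    fun_prop
  have h1 : ∀ n ∈ Icc 1 M, ∫ x in (1 : ℝ)..2, ∑ m ∈ Icc 1 M, Real.cos (x * (u * (Real.log n - Real.log m))) ≤
      1 + 2 * M / u * (2 * (1 + Real.log M)) := by
    intro n hn
    rw [intervalIntegral.integral_finsetSum]
    swap
    · intro m _
      apply Continuous.intervalIntegrable
      fun_prop
    rw [← Finset.add_sum_erase _ _ hn]
    apply add_le_add
    · simp only [sub_self, mul_zero, Real.cos_zero, intervalIntegral.integral_const, smul_eq_mul, mul_one]
      norm_num
    · have h2 : ∀ m ∈ (Icc 1 M).erase n, ∫ x in (1 : ℝ)..2, Real.cos (x * (u * (Real.log n - Real.log m))) ≤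
          2 * M / u * (1 / |(n : ℝ) - m|) := by
        intro m hm
        rw [Finset.mem_erase, Finset.mem_Icc] at hm
        rw [Finset.mem_Icc] at hn
        have hn0 : (0 : ℝ) < n := by
          have : 0 < n := by omega
          exact_mod_cast this
        have hm0 : (0 : ℝ) < m := by
          have : 0 < m := by omega
          exact_mod_cast this
        have hnm : (n : ℝ) ≠ m := by
          intro h; exact hm.1 (by exact_mod_cast h.symm)
        have hnM : (n : ℝ) ≤ M := by exact_mod_cast hn.2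
        have hmM : (m : ℝ) ≤ M := by exact_mod_cast hm.2.2
        have habs : 0 < |(n : ℝ) - m| := abs_pos.mpr (sub_ne_zero.mpr hnm)
        have key : |(n : ℝ) - m| / M ≤ |Real.log n - Real.log m| := by
          rcases lt_or_gt_of_ne hnm with h | h
          · rw [abs_of_neg (by linarith), abs_of_neg (by
              have := Real.log_lt_log hn0 h
              linarith)]
            have h3 := Real.log_le_sub_one_of_pos (x := (n : ℝ) / m) (by positivity)
            rw [Real.log_div hn0.ne' hm0.ne'] at h3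
            have h4 : -((n : ℝ) - m) / M ≤ -((n : ℝ) - m) / m :=
              div_le_div_of_nonneg_left (by linarith) hm0 hmM
            have h5 : -((n : ℝ) - m) / m = 1 - (n : ℝ) / m := by field_simp; ring
            linarith
          · rw [abs_of_pos (by linarith), abs_of_pos (by
              have := Real.log_lt_log hm0 h
              linarith)]
            have h3 := Real.log_le_sub_one_of_pos (x := (m : ℝ) / n) (by positivity)
            rw [Real.log_div hm0.ne' hn0.ne'] at h3
            have h4 : ((n : ℝ) - m) / M ≤ ((n : ℝ) - m) / n :=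
              div_le_div_of_nonneg_left (by linarith) hn0 hnM
            have h5 : ((n : ℝ) - m) / n = 1 - (m : ℝ) / n := by field_simp
            linarith
        have hc : u * (Real.log n - Real.log m) ≠ 0 := by
          intro h
          rcases mul_eq_zero.mp h with h | h
          · exact hu.ne' h
          · rw [h, abs_zero] at key
            have : 0 < |(n : ℝ) - m| / M := by positivity
            linarith
        refine (int_cos_le _ hc).trans ?_
        rw [abs_mul, abs_of_pos hu]
        have h6 : 0 < |Real.log n - Real.log m| := lt_of_lt_of_le (by positivity) key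
        calc 2 / (u * |Real.log n - Real.log m|) ≤ 2 / (u * (|(n : ℝ) - m| / M)) := by
              apply div_le_div_of_nonneg_left (by norm_num) (by positivity)
              exact mul_le_mul_of_nonneg_left key hu.le
          _ = 2 * M / u * (1 / |(n : ℝ) - m|) := by field_simp
      refine (Finset.sum_le_sum h2).trans ?_
      rw [← Finset.mul_sum]
      exact mul_le_mul_of_nonneg_left (sum_recip M n hn) (by positivity)
  refine (Finset.sum_le_sum h1).trans (le_of_eq ?_)
  rw [Finset.sum_const, Nat.card_Icc, Nat.add_sub_cancel, nsmul_eq_mul]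
  field_simp
  ring

end Pool.Agent.TH181.LV
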