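import Pool.Agent.TH181.LV.A

/-! # the large values inequality for almost all dilations -/

set_option autoImplicit false

open Finset MeasureTheory

namespace Pool.Agent.TH181.LV

/-- reciprocals of distances with distinct integer parts -/
theorem recip_inj (P : Finset ℝ) (t T : ℝ) (hT : 1 ≤ T) (h1 : ∀ s ∈ P, 1 ≤ |t - s| ∧ |t - s| ≤ T)
    (hinj : Set.InjOn (fun s => ⌊|t - s|⌋₊) P) : ∑ s ∈ P, 1 / |t - s| ≤ 1 + Real.log T := by
  have h2 : ∑ s ∈ P, 1 / |t - s| ≤ ∑ s ∈ P, 1 / ((⌊|t - s|⌋₊ : ℕ) : ℝ) := by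
    apply Finset.sum_le_sum
    intro s hs
    have h3 := (h1 s hs).1
    have h4 : 1 ≤ ⌊|t - s|⌋₊ := (Nat.one_le_floor_iff _).mpr h3
    have h5 : (0 : ℝ) < ((⌊|t - s|⌋₊ : ℕ) : ℝ) := by
      have : 0 < ⌊|t - s|⌋₊ := by omega
      exact_mod_cast this
    exact one_div_le_one_div_of_le h5 (Nat.floor_le (by linarith))
  have h3 : ∑ s ∈ P, 1 / ((⌊|t - s|⌋₊ : ℕ) : ℝ) = ∑ k ∈ P.image (fun s => ⌊|t - s|⌋₊), 1 / (k : ℝ) := by
    rw [Finset.sum_image hinj]
  have h4 : ∑ k ∈ P.image (fun s => ⌊|t - s|⌋₊), 1 / (k : ℝ) ≤ ∑ k ∈ Icc 1 ⌊T⌋₊, 1 / (k : ℝ) := by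
    apply Finset.sum_le_sum_of_subset_of_nonneg
    · intro k hk
      rw [Finset.mem_image] at hk
      obtain ⟨s, hs, rfl⟩ := hk
      rw [Finset.mem_Icc]
      exact ⟨(Nat.one_le_floor_iff _).mpr (h1 s hs).1, Nat.floor_mono (h1 s hs).2⟩
    · intro k _ _
      positivity
  have h5 : ∑ k ∈ Icc 1 ⌊T⌋₊, 1 / (k : ℝ) ≤ 1 + Real.log T := by
    have h6 := harmonic_le_one_add_log ⌊T⌋₊
    rw [harmonic_eq_sum_Icc] at h6
    push_cast at h6
    have h7 : ∑ k ∈ Icc 1 ⌊T⌋₊, 1 / (k : ℝ) = ∑ k ∈ Icc 1 ⌊T⌋₊, (k : ℝ)⁻¹ :=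
      Finset.sum_congr rfl (fun k _ => one_div _)
    rw [h7]
    refine h6.trans ?_
    have h8 : (0 : ℝ) < (⌊T⌋₊ : ℝ) := by
      have : 0 < ⌊T⌋₊ := Nat.floor_pos.mpr hT
      exact_mod_cast this
    have := Real.log_le_log h8 (Nat.floor_le (by linarith : (0 : ℝ) ≤ T))
    linarith
  linarith

/-- reciprocals of distances in a separated set; the term `s = t` is `0` -/
theorem recip_sep (S : Finset ℝ) (T : ℝ) (hT : 1 ≤ T) (hS : ∀ t ∈ S, 0 ≤ t ∧ t ≤ T)
    (hsep : ∀ t ∈ S, ∀ s ∈ S, t ≠ s → 1 ≤ |t - s|) (t : ℝ) (ht : t ∈ S) :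
    ∑ s ∈ S, 1 / |t - s| ≤ 2 * (1 + Real.log T) := by
  rw [← Finset.add_sum_erase _ _ ht]
  have h0 : 1 / |t - t| = 0 := by simp
  rw [h0, zero_add, ← Finset.sum_filter_add_sum_filter_not (S.erase t) (fun s => t < s)]
  have hfl : ∀ x y : ℝ, 0 ≤ x → 0 ≤ y → ⌊x⌋₊ = ⌊y⌋₊ → |x - y| < 1 := by
    intro x y hx hy hxy
    have h1 := Nat.floor_le hx
    have h2 := Nat.lt_floor_add_one x
    have h3 := Nat.floor_le hy
    have h4 := Nat.lt_floor_add_one y
    rw [hxy] at h1 h2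
    rw [abs_lt]
    constructor <;> linarith
  have hb : ∀ s ∈ S.erase t, 1 ≤ |t - s| ∧ |t - s| ≤ T := by
    intro s hs
    rw [Finset.mem_erase] at hs
    refine ⟨hsep t ht s hs.2 (Ne.symm hs.1), ?_⟩
    rw [abs_le]
    have h1 := hS t ht
    have h2 := hS s hs.2
    constructor <;> linarith
  have h1 : ∑ s ∈ (S.erase t).filter (fun s => t < s), 1 / |t - s| ≤ 1 + Real.log T := by
    apply recip_inj _ t T hT
    · intro s hs
      rw [Finset.mem_filter] at hs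
      exact hb s hs.1
    · intro s hs s' hs' hss
      simp only [Finset.coe_filter, Set.mem_ofPred_eq, Finset.mem_erase] at hs hs'
      simp only at hss
      by_contra hne
      have h2 := hfl _ _ (abs_nonneg _) (abs_nonneg _) hss
      rw [abs_of_neg (by linarith [hs.2] : t - s < 0), abs_of_neg (by linarith [hs'.2] : t - s' < 0)] at h2
      have h3 := hsep s hs.1.2 s' hs'.1.2 hne
      have h4 : -(t - s) - -(t - s') = s - s' := by ring
      rw [h4] at h2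
      linarith
  have h2 : ∑ s ∈ (S.erase t).filter (fun s => ¬ t < s), 1 / |t - s| ≤ 1 + Real.log T := by
    apply recip_inj _ t T hT
    · intro s hs
      rw [Finset.mem_filter] at hs
      exact hb s hs.1
    · intro s hs s' hs' hss
      simp only [Finset.coe_filter, Set.mem_ofPred_eq, Finset.mem_erase, not_lt] at hs hs'
      simp only at hss
      by_contra hne
      have h2 := hfl _ _ (abs_nonneg _) (abs_nonneg _) hss
      rw [abs_of_nonneg (by linarith [hs.2] : 0 ≤ t - s), abs_of_nonneg (by linarith [hs'.2] : 0 ≤ t - s')] at h2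
      have h3 := hsep s hs.1.2 s' hs'.1.2 hne
      have h4 : t - s - (t - s') = -(s - s') := by ring
      rw [h4, abs_neg] at h2
      linarith
  linarith

/-- duality -/
theorem dual (S : Finset ℝ) (N : ℕ) (lam : ℝ) (c : ℝ → ℂ) :
    ∑ n ∈ Icc 1 N, ‖∑ t ∈ S, c t * E (-(lam * t) * Real.log n)‖ ^ 2 ≤
      ∑ t ∈ S, ∑ s ∈ S, ‖c t‖ * ‖c s‖ * ‖F N (lam * (t - s))‖ := by
  have h1 : ∀ n : ℕ, ((‖∑ t ∈ S, c t * E (-(lam * t) * Real.log n)‖ ^ 2 : ℝ) : ℂ) =
      ∑ t ∈ S, ∑ s ∈ S, c t * (starRingEnd ℂ) (c s) * E (-(lam * (t - s)) * Real.log n) := by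
    intro n
    rw [← Complex.normSq_eq_norm_sq, ← Complex.mul_conj, map_sum, Finset.sum_mul_sum]
    apply Finset.sum_congr rfl
    intro t _
    apply Finset.sum_congr rfl
    intro s _
    rw [map_mul, E_conj]
    have h2 : E (-(lam * (t - s)) * Real.log n) = E (-(lam * t) * Real.log n) * E (-(-(lam * s) * Real.log n)) := by
      rw [← E_add]; congr 1; ring
    rw [h2]
    ring
  have h2 : ((∑ n ∈ Icc 1 N, ‖∑ t ∈ S, c t * E (-(lam * t) * Real.log n)‖ ^ 2 : ℝ) : ℂ) =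
      ∑ t ∈ S, ∑ s ∈ S, c t * (starRingEnd ℂ) (c s) * F N (-(lam * (t - s))) := by
    rw [Complex.ofReal_sum, Finset.sum_congr rfl (fun n _ => h1 n), Finset.sum_comm]
    apply Finset.sum_congr rfl
    intro t _
    rw [Finset.sum_comm]
    apply Finset.sum_congr rfl
    intro s _
    unfold F
    rw [Finset.mul_sum]
  have h3 : ∑ n ∈ Icc 1 N, ‖∑ t ∈ S, c t * E (-(lam * t) * Real.log n)‖ ^ 2 =
      ‖((∑ n ∈ Icc 1 N, ‖∑ t ∈ S, c t * E (-(lam * t) * Real.log n)‖ ^ 2 : ℝ) : ℂ)‖ := by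
    rw [Complex.norm_real, Real.norm_of_nonneg]
    exact Finset.sum_nonneg (fun n _ => by positivity)
  rw [h3, h2]
  refine (norm_sum_le _ _).trans (Finset.sum_le_sum fun t _ => (norm_sum_le _ _).trans
    (Finset.sum_le_sum fun s _ => ?_))
  rw [norm_mul, norm_mul, Complex.norm_conj, F_neg]

/-- Hilbert-Schmidt norm (squared) of the truncated kernel; the diagonal terms are `0` -/
noncomputable def Z2 (S : Finset ℝ) (N : ℕ) (lam : ℝ) : ℝ :=
  ∑ t ∈ S, ∑ s ∈ S, ‖F (min N ⌈|t - s|⌉₊) (lam * |t - s|)‖ ^ 2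

theorem Z2_cont (S : Finset ℝ) (N : ℕ) : Continuous (Z2 S N) := by
  unfold Z2
  refine continuous_finsetSum _ (fun t _ => continuous_finsetSum _ (fun s _ => ?_))
  exact ((F_cont _).comp (by fun_prop)).norm.pow 2

theorem Z2_nonneg (S : Finset ℝ) (N : ℕ) (lam : ℝ) : 0 ≤ Z2 S N lam := by
  unfold Z2
  exact Finset.sum_nonneg (fun t _ => Finset.sum_nonneg (fun s _ => by positivity))

theorem kernel_le (N : ℕ) (t s lam : ℝ) (hl1 : 1 ≤ lam) (hl2 : lam ≤ 2) (h : t ≠ s → 1 ≤ |t - s|) :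
    ‖F N (lam * (t - s))‖ ≤ (if t = s then (N : ℝ) else 0) + ‖F (min N ⌈|t - s|⌉₊) (lam * |t - s|)‖ +
      4 * Real.pi * N * (1 / |t - s|) := by
  by_cases hts : t = s
  · rw [if_pos hts]
    have h1 := F_le N (lam * (t - s))
    have h2 : 0 ≤ 4 * Real.pi * N * (1 / |t - s|) := by positivity
    have h3 := norm_nonneg (F (min N ⌈|t - s|⌉₊) (lam * |t - s|))
    linarith
  · rw [if_neg hts]
    have h1 := F_split N |t - s| lam (h hts) hl1 hl2
    have h2 : ‖F N (lam * (t - s))‖ = ‖F N (lam * |t - s|)‖ := by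
      rw [← F_abs N (lam * (t - s)), abs_mul, abs_of_nonneg (by linarith : (0 : ℝ) ≤ lam)]
    rw [h2]
    have h3 : 4 * Real.pi * N / |t - s| = 4 * Real.pi * N * (1 / |t - s|) := by ring
    rw [h3] at h1
    linarith

/-- the large values inequality -/
theorem large (S : Finset ℝ) (N : ℕ) (T lam : ℝ) (hT : 1 ≤ T) (hl1 : 1 ≤ lam) (hl2 : lam ≤ 2)
    (hS : ∀ t ∈ S, 0 ≤ t ∧ t ≤ T) (hsep : ∀ t ∈ S, ∀ s ∈ S, t ≠ s → 1 ≤ |t - s|)
    (a : ℕ → ℂ) (ha : ∀ n, ‖a n‖ ≤ 1) :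
    ∑ t ∈ S, ‖∑ n ∈ Icc 1 N, a n * E (-(lam * t) * Real.log n)‖ ^ 2 ≤
      (N : ℝ) ^ 2 * (1 + 8 * Real.pi * (1 + Real.log T)) + N * √(Z2 S N lam) := by
  set D : ℝ → ℂ := fun t => ∑ n ∈ Icc 1 N, a n * E (-(lam * t) * Real.log n) with hD
  set Q : ℝ := ∑ t ∈ S, ‖D t‖ ^ 2 with hQ
  have hlog : 0 ≤ Real.log T := Real.log_nonneg hT
  have hQ0 : 0 ≤ Q := Finset.sum_nonneg (fun t _ => by positivity)
  have hpi := Real.pi_pos
  -- step A
  have hA : Q ≤ ∑ n ∈ Icc 1 N, ‖∑ t ∈ S, (starRingEnd ℂ) (D t) * E (-(lam * t) * Real.log n)‖ := by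
    have h1 : ((Q : ℝ) : ℂ) = ∑ n ∈ Icc 1 N, a n * ∑ t ∈ S, (starRingEnd ℂ) (D t) * E (-(lam * t) * Real.log n) := by
      rw [hQ, Complex.ofReal_sum]
      simp_rw [Finset.mul_sum]
      rw [Finset.sum_comm]
      apply Finset.sum_congr rfl
      intro t _
      rw [← Complex.normSq_eq_norm_sq, ← Complex.mul_conj]
      have h2 : D t = ∑ n ∈ Icc 1 N, a n * E (-(lam * t) * Real.log n) := rfl
      calc D t * (starRingEnd ℂ) (D t) = (∑ n ∈ Icc 1 N, a n * E (-(lam * t) * Real.log n)) * (starRingEnd ℂ) (D t) := by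
            rw [← h2]
        _ = ∑ n ∈ Icc 1 N, a n * ((starRingEnd ℂ) (D t) * E (-(lam * t) * Real.log n)) := by
            rw [Finset.sum_mul]
            apply Finset.sum_congr rfl
            intro n _
            ring
    have h2 : Q = ‖((Q : ℝ) : ℂ)‖ := by rw [Complex.norm_real, Real.norm_of_nonneg hQ0]
    rw [h2, h1]
    refine (norm_sum_le _ _).trans (Finset.sum_le_sum fun n _ => ?_)
    rw [norm_mul]
    calc ‖a n‖ * ‖∑ t ∈ S, (starRingEnd ℂ) (D t) * E (-(lam * t) * Real.log n)‖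
        ≤ 1 * ‖∑ t ∈ S, (starRingEnd ℂ) (D t) * E (-(lam * t) * Real.log n)‖ :=
          mul_le_mul_of_nonneg_right (ha n) (norm_nonneg _)
      _ = _ := one_mul _
  have hB : Q ^ 2 ≤ N * ∑ t ∈ S, ∑ s ∈ S, ‖D t‖ * ‖D s‖ * ‖F N (lam * (t - s))‖ := by
    have h1 := pow_le_pow_left₀ hQ0 hA 2
    have h2 := sq_sum_le_card_mul_sum_sq (s := Icc 1 N)
      (f := fun n => ‖∑ t ∈ S, (starRingEnd ℂ) (D t) * E (-(lam * t) * Real.log n)‖)
    have h3 := dual S N lam (fun t => (starRingEnd ℂ) (D t))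
    simp only [Complex.norm_conj] at h3
    rw [Nat.card_Icc, Nat.add_sub_cancel] at h2
    refine (h1.trans h2).trans ?_
    exact mul_le_mul_of_nonneg_left h3 (by positivity)
  have hC : ∑ t ∈ S, ∑ s ∈ S, ‖D t‖ * ‖D s‖ * ‖F N (lam * (t - s))‖ ≤
      N * Q + Q * √(Z2 S N lam) + 4 * Real.pi * N * (2 * (1 + Real.log T) * Q) := by
    have h1 : ∑ t ∈ S, ∑ s ∈ S, ‖D t‖ * ‖D s‖ * ‖F N (lam * (t - s))‖ ≤
        ∑ t ∈ S, ∑ s ∈ S, (‖D t‖ * ‖D s‖ * (if t = s then (N : ℝ) else 0) +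
          (‖D t‖ * ‖D s‖) * ‖F (min N ⌈|t - s|⌉₊) (lam * |t - s|)‖ +
          4 * Real.pi * N * ((‖D t‖ ^ 2 + ‖D s‖ ^ 2) / 2 * (1 / |t - s|))) := by
      apply Finset.sum_le_sum
      intro t ht
      apply Finset.sum_le_sum
      intro s hs
      have h2 := kernel_le N t s lam hl1 hl2 (hsep t ht s hs)
      have h3 : 0 ≤ ‖D t‖ * ‖D s‖ := by positivity
      have h4 := mul_le_mul_of_nonneg_left h2 h3
      refine h4.trans ?_
      have h5 : ‖D t‖ * ‖D s‖ ≤ (‖D t‖ ^ 2 + ‖D s‖ ^ 2) / 2 := by nlinarith [sq_nonneg (‖D t‖ - ‖D s‖)]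
      have h6 : ‖D t‖ * ‖D s‖ * (4 * Real.pi * N * (1 / |t - s|)) ≤
          4 * Real.pi * N * ((‖D t‖ ^ 2 + ‖D s‖ ^ 2) / 2 * (1 / |t - s|)) := by
        have h7 : ‖D t‖ * ‖D s‖ * (4 * Real.pi * N * (1 / |t - s|)) =
          4 * Real.pi * N * (‖D t‖ * ‖D s‖ * (1 / |t - s|)) := by ring
        rw [h7]
        apply mul_le_mul_of_nonneg_left _ (by positivity)
        exact mul_le_mul_of_nonneg_right h5 (by positivity)
      rw [mul_add, mul_add]
      linarith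
    refine h1.trans ?_
    simp_rw [Finset.sum_add_distrib]
    apply add_le_add
    · apply add_le_add
      · apply le_of_eq
        rw [hQ, Finset.mul_sum]
        apply Finset.sum_congr rfl
        intro t ht
        simp only [mul_ite, mul_zero]
        rw [Finset.sum_ite_eq, if_pos ht]
        ring
      · have h2 := Real.sum_mul_le_sqrt_mul_sqrt (S ×ˢ S) (fun p => ‖D p.1‖ * ‖D p.2‖)
          (fun p => ‖F (min N ⌈|p.1 - p.2|⌉₊) (lam * |p.1 - p.2|)‖)
        rw [Finset.sum_product, Finset.sum_product, Finset.sum_product] at h2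
        refine h2.trans ?_
        have h3 : ∑ x ∈ S, ∑ y ∈ S, (‖D x‖ * ‖D y‖) ^ 2 = Q ^ 2 := by
          rw [hQ, sq (∑ t ∈ S, ‖D t‖ ^ 2), Finset.sum_mul_sum]
          apply Finset.sum_congr rfl
          intro t _
          apply Finset.sum_congr rfl
          intro s _
          ring
        simp only at h3 ⊢
        rw [h3, Real.sqrt_sq hQ0]
        exact le_of_eq rfl
    · have h2 : ∀ t ∈ S, ∑ s ∈ S, ‖D t‖ ^ 2 * (1 / |t - s|) ≤ ‖D t‖ ^ 2 * (2 * (1 + Real.log T)) := by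
        intro t ht
        rw [← Finset.mul_sum]
        exact mul_le_mul_of_nonneg_left (recip_sep S T hT hS hsep t ht) (by positivity)
      have h3 := Finset.sum_le_sum h2
      have h4 : ∑ t ∈ S, ∑ s ∈ S, ‖D s‖ ^ 2 * (1 / |t - s|) = ∑ t ∈ S, ∑ s ∈ S, ‖D t‖ ^ 2 * (1 / |t - s|) := by
        rw [Finset.sum_comm]
        apply Finset.sum_congr rfl
        intro t _
        apply Finset.sum_congr rfl
        intro s _
        rw [abs_sub_comm]
      have h5 : ∑ t ∈ S, ∑ s ∈ S, 4 * Real.pi * N * ((‖D t‖ ^ 2 + ‖D s‖ ^ 2) / 2 * (1 / |t - s|)) =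
          4 * Real.pi * N * (((∑ t ∈ S, ∑ s ∈ S, ‖D t‖ ^ 2 * (1 / |t - s|)) +
            (∑ t ∈ S, ∑ s ∈ S, ‖D s‖ ^ 2 * (1 / |t - s|))) / 2) := by
        rw [← Finset.sum_add_distrib, Finset.sum_div, Finset.mul_sum]
        apply Finset.sum_congr rfl
        intro t _
        rw [← Finset.sum_add_distrib, Finset.sum_div, Finset.mul_sum]
        apply Finset.sum_congr rfl
        intro s _
        ring
      rw [h5, h4]
      rw [← Finset.sum_mul] at h3
      apply mul_le_mul_of_nonneg_left _ (by positivity)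
      linarith
  rcases hQ0.eq_or_lt with h0 | h0
  · rw [← h0]
    have := Real.sqrt_nonneg (Z2 S N lam)
    positivity
  · have h1 : Q * Q ≤ Q * ((N : ℝ) ^ 2 * (1 + 8 * Real.pi * (1 + Real.log T)) + N * √(Z2 S N lam)) := by
      have h2 : (0 : ℝ) ≤ N := by positivity
      have h3 := mul_le_mul_of_nonneg_left hC h2
      have h4 : (N : ℝ) * (N * Q + Q * √(Z2 S N lam) + 4 * Real.pi * N * (2 * (1 + Real.log T) * Q)) =
          Q * ((N : ℝ) ^ 2 * (1 + 8 * Real.pi * (1 + Real.log T)) + N * √(Z2 S N lam)) := by ring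
      rw [h4] at h3
      have h5 : Q * Q = Q ^ 2 := by ring
      rw [h5]
      exact hB.trans h3
    exact le_of_mul_le_mul_left h1 h0

/-- mean value of the Hilbert-Schmidt norm -/
theorem Z2_mean (S : Finset ℝ) (N : ℕ) (T : ℝ) (hN : 1 ≤ N) (hT : 1 ≤ T)
    (hS : ∀ t ∈ S, 0 ≤ t ∧ t ≤ T) (hsep : ∀ t ∈ S, ∀ s ∈ S, t ≠ s → 1 ≤ |t - s|) :
    ∫ x in (1 : ℝ)..2, Z2 S N x ≤ (S.card : ℝ) ^ 2 * (9 * N * (1 + Real.log (2 * T))) := by
  have hlog : 0 ≤ Real.log (2 * T) := Real.log_nonneg (by linarith)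
  unfold Z2
  rw [intervalIntegral.integral_finsetSum]
  swap
  · intro t _
    apply Continuous.intervalIntegrable
    refine continuous_finsetSum _ (fun s _ => ?_)
    exact ((F_cont _).comp (by fun_prop)).norm.pow 2
  have h1 : ∀ t ∈ S, ∫ x in (1 : ℝ)..2, ∑ s ∈ S, ‖F (min N ⌈|t - s|⌉₊) (x * |t - s|)‖ ^ 2 ≤
      S.card * (9 * N * (1 + Real.log (2 * T))) := by
    intro t ht
    rw [intervalIntegral.integral_finsetSum]
    swap
    · intro s _
      apply Continuous.intervalIntegrable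
      exact ((F_cont _).comp (by fun_prop)).norm.pow 2
    rw [← nsmul_eq_mul]
    apply Finset.sum_le_card_nsmul
    intro s hs
    by_cases hts : t = s
    · subst hts
      have h2 : ∀ x : ℝ, ‖F (min N ⌈|t - t|⌉₊) (x * |t - t|)‖ ^ 2 = 0 := by
        intro x
        have h3 : min N ⌈|t - t|⌉₊ = 0 := by simp
        rw [h3]
        unfold F
        simp
      simp_rw [h2]
      rw [intervalIntegral.integral_zero]
      positivity
    · set u : ℝ := |t - s| with hu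
      have hu1 : 1 ≤ u := hsep t ht s hs hts
      have huT : u ≤ T := by
        rw [hu, abs_le]
        have h1 := hS t ht
        have h2 := hS s hs
        constructor <;> linarith
      set M : ℕ := min N ⌈u⌉₊ with hM
      have hM1 : 1 ≤ M := by
        rw [hM, le_min_iff]
        refine ⟨hN, ?_⟩
        rw [Nat.one_le_ceil_iff]
        linarith
      have hMc : (M : ℝ) ≤ (⌈u⌉₊ : ℝ) := by
        have : M ≤ ⌈u⌉₊ := min_le_right _ _
        exact_mod_cast this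
      have hc : (⌈u⌉₊ : ℝ) < u + 1 := Nat.ceil_lt_add_one (by linarith)
      have hM2u : (M : ℝ) ≤ 2 * u := by linarith
      have hM2T : (M : ℝ) ≤ 2 * T := by linarith
      have hMN : (M : ℝ) ≤ N := by
        have : M ≤ N := min_le_left _ _
        exact_mod_cast this
      have hM0 : (1 : ℝ) ≤ M := by exact_mod_cast hM1
      have hlM : Real.log M ≤ Real.log (2 * T) := Real.log_le_log (by linarith) hM2T
      have hlM0 : 0 ≤ Real.log M := Real.log_nonneg hM0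
      have hmean := mean M u (by linarith) hM1
      refine hmean.trans ?_
      have h3 : 4 * (M : ℝ) ^ 2 * (1 + Real.log M) / u ≤ 8 * M * (1 + Real.log M) := by
        rw [div_le_iff₀ (by linarith)]
        have h4 : 0 ≤ (M : ℝ) * (1 + Real.log M) := by positivity
        nlinarith
      have h5 : (M : ℝ) + 8 * M * (1 + Real.log M) ≤ 9 * M * (1 + Real.log M) := by nlinarith
      have h6 : 9 * (M : ℝ) * (1 + Real.log M) ≤ 9 * N * (1 + Real.log (2 * T)) := by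
        apply mul_le_mul (by linarith) (by linarith) (by linarith) (by positivity)
      linarith
  have h2 := Finset.sum_le_sum h1
  rw [Finset.sum_const, nsmul_eq_mul] at h2
  refine h2.trans (le_of_eq ?_)
  ring

/-- Chebyshev's inequality for the Hilbert-Schmidt norm -/
theorem Z2_meas (S : Finset ℝ) (N : ℕ) (T ρ : ℝ) (hN : 1 ≤ N) (hT : 1 ≤ T) (hρ : 0 < ρ)
    (hS : ∀ t ∈ S, 0 ≤ t ∧ t ≤ T) (hsep : ∀ t ∈ S, ∀ s ∈ S, t ≠ s → 1 ≤ |t - s|) :
    volume {x : ℝ | x ∈ Set.Icc (1 : ℝ) 2 ∧ ρ ≤ Z2 S N x} ≤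
      ENNReal.ofReal ((S.card : ℝ) ^ 2 * (9 * N * (1 + Real.log (2 * T))) / ρ) := by
  have hsub : {x : ℝ | x ∈ Set.Icc (1 : ℝ) 2 ∧ ρ ≤ Z2 S N x} ⊆ {x : ℝ | ρ ≤ Z2 S N x} ∩ Set.Icc (1 : ℝ) 2 := by
    rintro x ⟨hx, h⟩
    exact ⟨h, hx⟩
  have hc := Z2_cont S N
  have hmeas : MeasurableSet {x : ℝ | ρ ≤ Z2 S N x} := (isClosed_le continuous_const hc).measurableSet
  have hint' : Integrable (Z2 S N) (volume.restrict (Set.Icc (1 : ℝ) 2)) := (hc.continuousOn).integrableOn_Icc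
  have h3 := mul_meas_ge_le_integral_of_nonneg (μ := volume.restrict (Set.Icc (1 : ℝ) 2)) (f := Z2 S N)
    (Filter.Eventually.of_forall (Z2_nonneg S N)) hint' ρ
  have h4 : ∫ x, Z2 S N x ∂(volume.restrict (Set.Icc (1 : ℝ) 2)) = ∫ x in (1 : ℝ)..2, Z2 S N x := by
    rw [intervalIntegral.integral_of_le (by norm_num), integral_Icc_eq_integral_Ioc]
  rw [h4] at h3
  have h5 : (volume.restrict (Set.Icc (1 : ℝ) 2)).real {x : ℝ | ρ ≤ Z2 S N x} =
      (volume ({x : ℝ | ρ ≤ Z2 S N x} ∩ Set.Icc (1 : ℝ) 2)).toReal := by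
    unfold Measure.real
    rw [Measure.restrict_apply hmeas]
  rw [h5] at h3
  have hfin : volume ({x : ℝ | ρ ≤ Z2 S N x} ∩ Set.Icc (1 : ℝ) 2) ≠ ⊤ := by
    refine ne_top_of_le_ne_top ?_ (measure_mono Set.inter_subset_right)
    rw [Real.volume_Icc]
    exact ENNReal.ofReal_ne_top
  refine (measure_mono hsub).trans ?_
  rw [← ENNReal.ofReal_toReal hfin]
  apply ENNReal.ofReal_le_ofReal
  rw [le_div_iff₀ hρ, mul_comm]
  exact h3.trans (Z2_mean S N T hN hT hS hsep)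

/-- the powers of the problem in terms of `E` -/
theorem cpow_E (n : ℕ) (hn : 1 ≤ n) (x : ℝ) : (n : ℂ) ^ (-((x : ℂ) * Complex.I)) = E (-x * Real.log n) := by
  have hn0 : (n : ℂ) ≠ 0 := by
    have : n ≠ 0 := by omega
    exact_mod_cast this
  rw [Complex.cpow_def_of_ne_zero hn0, ← Complex.natCast_log]
  unfold E
  congr 1
  push_cast
  ring

end Pool.Agent.TH181.LV
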